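import Pool.Agent.V11331.SA.Sph

set_option autoImplicit false

/-!
# MP_da621d_pr: the rescaled law of the random solid angle has a nonzero vague limit
-/

open MeasureTheory Filter Topology

namespace Pool.Agent.Results.MP_da621d_pr.VagueLimit

/-- The uniform distribution on the unit sphere `S^{d-1}` of `ℝ^d` (normalised surface measure). -/
noncomputable def unif (d : ℕ) : Measure (Metric.sphere (0 : EuclideanSpace ℝ (Fin d)) 1) :=
  ((volume : Measure (EuclideanSpace ℝ (Fin d))).toSphere Set.univ)⁻¹ •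
    (volume : Measure (EuclideanSpace ℝ (Fin d))).toSphere

/-- The positive hull `pos(x_1,…,x_m)`. -/
def posHull {d m : ℕ} (x : Fin m → EuclideanSpace ℝ (Fin d)) : Set (EuclideanSpace ℝ (Fin d)) :=
  {y | ∃ lam : Fin m → ℝ, (∀ i, 0 ≤ lam i) ∧ y = ∑ i, lam i • x i}

/-- The solid angle `P[U ∈ C]` of a cone `C ⊆ ℝ^d`, with `U` uniform on the unit sphere. -/
noncomputable def solidAngle {d : ℕ} (C : Set (EuclideanSpace ℝ (Fin d))) : ℝ :=
  (unif d).real {u | (u : EuclideanSpace ℝ (Fin d)) ∈ C}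

/-- `α_d` as a function of the points `U_1,…,U_d` of the sphere. -/
noncomputable def alpha (d : ℕ)
    (u : Fin d → Metric.sphere (0 : EuclideanSpace ℝ (Fin d)) 1) : ℝ :=
  solidAngle (posHull fun i => (u i : EuclideanSpace ℝ (Fin d)))

/-- The joint law of the independent uniform points `U_1,…,U_d`. -/
noncomputable def joint (d : ℕ) :
    Measure (Fin d → Metric.sphere (0 : EuclideanSpace ℝ (Fin d)) 1) :=
  Measure.pi fun _ : Fin d => unif d

/-- The measure `μ_d(A) = 2^d · d · P[α_d ∈ A]` on `(0,∞)`. -/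
noncomputable def mu (d : ℕ) : Measure (Set.Ioi (0 : ℝ)) :=
  (ENNReal.ofReal (2 ^ d * d) • (joint d).map (alpha d)).comap Subtype.val

/-- The measures `μ_d` converge vaguely on `(0,∞)` to a nonzero locally finite measure. -/
theorem result :
    (∀ d : ℕ, 1 ≤ d → IsProbabilityMeasure (unif d) ∧ AEMeasurable (alpha d) (joint d)) ∧
    ∃ μ : Measure (Set.Ioi (0 : ℝ)), IsLocallyFiniteMeasure μ ∧ μ ≠ 0 ∧
      ∀ f : Set.Ioi (0 : ℝ) → ℝ, Continuous f → HasCompactSupport f →
        Tendsto (fun d : ℕ => ∫ x, f x ∂(mu d)) atTop (𝓝 (∫ x, f x ∂μ)) := by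
  refine ⟨fun d hd => ⟨?_, ?_⟩, ?_⟩
  · exact Pool.Agent.V11331.SA.unif_prob d hd
  · exact Pool.Agent.V11331.SA.alpha_aem hd
  · exact Pool.Agent.V11331.SA.main

end Pool.Agent.Results.MP_da621d_pr.VagueLimit
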